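import Pool.Agent.Helper72.MK.GoalsT

/-!
# Makai's conjecture in dimension 3, packet SEC2: sections over spheres of dimension at least 3
-/

open MeasureTheory Set Filter Topology
open scoped ENNReal Quaternion

noncomputable section

namespace Pool.Agent.Helper81.MK

open Pool.Agent.Helper72.MK

lemma PM_smul (v : Fin 3 → ℝ) (c : ℂ) (s : ℂ × ℂ) : PM v (c • s) = c • PM v s := by
  unfold PM
  ext
  · simp
    ring
  · simp
    ring

lemma Eig_smul {v : Fin 3 → ℝ} {c : ℂ} {s : ℂ × ℂ} (hc : c ≠ 0) (h : Eig v s) :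
    Eig v (c • s) := by
  refine ⟨smul_ne_zero hc h.1, ?_⟩
  rw [PM_smul, h.2, smul_comm]

lemma fr_cont {X : Type} [TopologicalSpace X] {S : Set X} {s t : X → ℂ × ℂ}
    (hs : ContinuousOn s S) (ht : ContinuousOn t S) (h0 : ∀ x ∈ S, s x ≠ 0) :
    ContinuousOn (fun x => fr (s x) (t x)) S := by
  unfold fr
  have hs1 : ContinuousOn (fun x => (s x).1) S := continuous_fst.comp_continuousOn hs
  have hs2 : ContinuousOn (fun x => (s x).2) S := continuous_snd.comp_continuousOn hs
  have ht1 : ContinuousOn (fun x => (t x).1) S := continuous_fst.comp_continuousOn ht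
  have ht2 : ContinuousOn (fun x => (t x).2) S := continuous_snd.comp_continuousOn ht
  apply ContinuousOn.div
  · exact ((continuous_star.comp_continuousOn hs1).mul ht1).add
      ((continuous_star.comp_continuousOn hs2).mul ht2)
  · apply Complex.continuous_ofReal.comp_continuousOn
    exact (hs1.norm.pow 2).add (hs2.norm.pow 2)
  · intro x hx h
    apply h0 x hx
    have h1 : ‖(s x).1‖ ^ 2 + ‖(s x).2‖ ^ 2 = 0 := by exact_mod_cast h
    have h2 : ‖(s x).1‖ = 0 := by nlinarith [sq_nonneg ‖(s x).1‖, sq_nonneg ‖(s x).2‖]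
    have h3 : ‖(s x).2‖ = 0 := by nlinarith [sq_nonneg ‖(s x).1‖, sq_nonneg ‖(s x).2‖]
    exact Prod.ext (norm_eq_zero.1 h2) (norm_eq_zero.1 h3)

/-- The homogeneous extension of a continuous function on the sphere is continuous. -/
lemma hom_cont {W : Type} [NormedAddCommGroup W] [InnerProductSpace ℝ W] [FiniteDimensional ℝ W]
    (φ : W → ℂ) (hφ : ContinuousOn φ (SS W)) :
    Continuous (fun y : W => (‖y‖ : ℂ) * φ (‖y‖⁻¹ • y)) := by
  have hS : SS W = Metric.sphere (0 : W) 1 := by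
    ext x
    simp [SS]
  have hcomp : IsCompact (SS W) := by
    rw [hS]
    exact isCompact_sphere _ _
  obtain ⟨C, hC⟩ := hcomp.exists_bound_of_continuousOn hφ
  have hnorm : ∀ y : W, y ≠ 0 → ‖y‖⁻¹ • y ∈ SS W := by
    intro y hy
    change ‖‖y‖⁻¹ • y‖ = 1
    rw [norm_smul, norm_inv, norm_norm]
    exact inv_mul_cancel₀ (norm_ne_zero_iff.2 hy)
  rw [continuous_iff_continuousAt]
  intro y
  by_cases hy : y = 0
  · subst hy
    have h0 : ((‖(0 : W)‖ : ℝ) : ℂ) * φ (‖(0 : W)‖⁻¹ • (0 : W)) = 0 := by simp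
    rw [ContinuousAt, h0]
    apply squeeze_zero_norm' (a := fun y : W => ‖y‖ * |C|)
    · refine Filter.Eventually.of_forall fun y => ?_
      rw [norm_mul, Complex.norm_real, norm_norm]
      by_cases hy : y = 0
      · subst hy
        simp
      · exact mul_le_mul_of_nonneg_left ((hC _ (hnorm y hy)).trans (le_abs_self C))
          (norm_nonneg _)
    · have h1 : Tendsto (fun y : W => ‖y‖ * |C|) (𝓝 0) (𝓝 (‖(0 : W)‖ * |C|)) :=
        (continuous_norm.mul continuous_const).tendsto 0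
      simpa using h1
  · have hopen : IsOpen {y : W | y ≠ 0} := isOpen_ne
    have h1 : ContinuousOn (fun y : W => ‖y‖⁻¹ • y) {y : W | y ≠ 0} := by
      apply ContinuousOn.smul
      · exact continuous_norm.continuousOn.inv₀ fun y hy => norm_ne_zero_iff.2 hy
      · exact continuousOn_id
    have h2 : ContinuousOn (fun y : W => φ (‖y‖⁻¹ • y)) {y : W | y ≠ 0} :=
      hφ.comp h1 fun y hy => hnorm y hy
    have h3 : ContinuousOn (fun y : W => (‖y‖ : ℂ) * φ (‖y‖⁻¹ • y)) {y : W | y ≠ 0} :=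
      (Complex.continuous_ofReal.comp continuous_norm).continuousOn.mul h2
    exact h3.continuousAt (hopen.mem_nhds hy)

/-- Sections over hemispheres. -/
lemma hem_sec (hSEC1 : SEC1Stmt) (hHEM : HEMStmt) {E : Type} [NormedAddCommGroup E]
    [InnerProductSpace ℝ E] [FiniteDimensional ℝ E] (v : E → Fin 3 → ℝ)
    (hv : ContinuousOn v (SS E)) (hv0 : ∀ x ∈ SS E, v x ≠ 0) (N : E) (hN : ‖N‖ = 1) :
    ∃ s : E → ℂ × ℂ, ContinuousOn s (Hem N) ∧ ∀ x ∈ Hem N, Eig (v x) (s x) := by
  classical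
  obtain ⟨hc, hc'⟩ := hHEM E N hN
  have hsub : Hem N ⊆ SS E := fun x hx => hx.1
  obtain ⟨s, hs, hs'⟩ := hSEC1 (Hem N) (fun x => v x)
    (continuousOn_iff_continuous_domRestrict.1 (hv.mono hsub)) (fun x => hv0 x (hsub x.2))
  refine ⟨fun x => if h : x ∈ Hem N then s ⟨x, h⟩ else 0, ?_, ?_⟩
  · rw [continuousOn_iff_continuous_domRestrict]
    have e : (Hem N).domRestrict (fun x => if h : x ∈ Hem N then s ⟨x, h⟩ else 0) = s := by
      funext x
      simp [Set.domRestrict]
    rw [e]
    exact hs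
  · intro x hx
    simp only [hx, dif_pos]
    exact hs' ⟨x, hx⟩

theorem sec2 (hSEC1 : SEC1Stmt) (hHEM : HEMStmt) (hLOG2 : LOG2Stmt) (hEIG : EIGStmt) :
    SEC2Stmt := by
  intro E _ _ _ hdim v hv hv0
  have hnt : Nontrivial E := Module.nontrivial_of_finrank_pos (R := ℝ) (by omega)
  obtain ⟨x₀, hx₀⟩ := exists_ne (0 : E)
  set N : E := ‖x₀‖⁻¹ • x₀ with hNdef
  have hN : ‖N‖ = 1 := by
    rw [hNdef, norm_smul, norm_inv, norm_norm]
    exact inv_mul_cancel₀ (norm_ne_zero_iff.2 hx₀)
  have hN0 : N ≠ 0 := by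
    intro h
    rw [h, norm_zero] at hN
    exact zero_ne_one hN
  obtain ⟨s1, hs1, hs1'⟩ := hem_sec hSEC1 hHEM v hv hv0 N hN
  obtain ⟨s2, hs2, hs2'⟩ := hem_sec hSEC1 hHEM v hv hv0 (-N) (by rw [norm_neg, hN])
  -- the equator
  set W : Submodule ℝ E := (Submodule.span ℝ {N})ᗮ with hW
  have hWmem : ∀ x : E, x ∈ W ↔ inner ℝ N x = 0 := fun x => by
    rw [hW]
    exact Submodule.mem_orthogonal_singleton_iff_inner_right
  have hWdim : 3 ≤ Module.finrank ℝ W := by
    have h1 := Submodule.finrank_add_finrank_orthogonal (𝕜 := ℝ) (Submodule.span ℝ {N})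
    rw [finrank_span_singleton hN0] at h1
    rw [hW]
    omega
  have hSSW : ∀ w : W, w ∈ SS W → (w : E) ∈ Hem N ∧ (w : E) ∈ Hem (-N) := by
    intro w hw
    have h1 : ‖(w : E)‖ = 1 := hw
    have h2 := (hWmem w).1 w.2
    refine ⟨⟨h1, ?_⟩, h1, ?_⟩
    · rw [h2]
    · rw [inner_neg_left, h2, neg_zero]
  have hsubW1 : ContinuousOn (fun w : W => s1 w) (SS W) :=
    hs1.comp continuous_subtype_val.continuousOn fun w hw => (hSSW w hw).1
  have hsubW2 : ContinuousOn (fun w : W => s2 w) (SS W) :=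
    hs2.comp continuous_subtype_val.continuousOn fun w hw => (hSSW w hw).2
  have hf := fr_cont hsubW1 hsubW2 (fun w hw => (hs1' _ (hSSW w hw).1).1)
  have hkey : ∀ w : W, w ∈ SS W → fr (s1 w) (s2 w) ≠ 0 ∧ s2 w = fr (s1 w) (s2 w) • s1 w := by
    intro w hw
    obtain ⟨h1, h2⟩ := hSSW w hw
    exact hEIG.2.1 (v w) (s1 w) (s2 w) (hv0 _ h1.1) (hs1' _ h1) (hs2' _ h2)
  obtain ⟨φ, hφ, hφ'⟩ := hLOG2 W hWdim (fun w => fr (s1 w) (s2 w)) hf fun w hw => (hkey w hw).1
  -- the extension of the logarithm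
  set ψ : E → ℂ := fun x => (‖W.orthogonalProjectionOnto x‖ : ℂ) *
    φ (‖W.orthogonalProjectionOnto x‖⁻¹ • W.orthogonalProjectionOnto x) with hψ
  have hψc : Continuous ψ := (hom_cont φ hφ).comp W.orthogonalProjectionOnto.continuous
  have hψe : ∀ w : W, w ∈ SS W → ψ w = φ w := by
    intro w hw
    have h1 : ‖w‖ = 1 := hw
    rw [hψ]
    simp only [Submodule.orthogonalProjectionOnto_mem_subspace_eq_self]
    rw [h1]
    simp
  have hequ : ∀ x, x ∈ Hem N → x ∈ Hem (-N) → Complex.exp (-ψ x) • s2 x = s1 x := by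
    intro x h1 h2
    have h3 : inner ℝ N x = 0 := by
      have h4 := h2.2
      rw [inner_neg_left] at h4
      linarith [h1.2]
    have hxW : x ∈ W := (hWmem x).2 h3
    have hw : (⟨x, hxW⟩ : W) ∈ SS W := h1.1
    have h5 := hψe ⟨x, hxW⟩ hw
    have h6 := hφ' ⟨x, hxW⟩ hw
    have h7 := (hkey ⟨x, hxW⟩ hw).2
    simp only at h5 h6 h7
    rw [h7, h5, smul_smul, ← h6, ← Complex.exp_add, neg_add_cancel, Complex.exp_zero, one_smul]
  classical
  refine ⟨fun x => if x ∈ Hem N then s1 x else Complex.exp (-ψ x) • s2 x, ?_, ?_⟩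
  · have hSS : SS E = Hem N ∪ Hem (-N) := by
      ext x
      constructor
      · intro hx
        rcases le_total 0 (inner ℝ N x) with h | h
        · exact Or.inl ⟨hx, h⟩
        · refine Or.inr ⟨hx, ?_⟩
          rw [inner_neg_left]
          linarith
      · rintro (h | h)
        · exact h.1
        · exact h.1
    have hclosed : ∀ M : E, IsClosed (Hem M) := by
      intro M
      have h1 : IsClosed {x : E | ‖x‖ = 1} := isClosed_eq continuous_norm continuous_const
      have h2 : IsClosed {x : E | 0 ≤ inner ℝ M x} :=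
        isClosed_le continuous_const (continuous_const.inner continuous_id)
      exact h1.inter h2
    rw [hSS]
    apply ContinuousOn.union_of_isClosed _ _ (hclosed N) (hclosed (-N))
    · exact hs1.congr fun x hx => if_pos hx
    · have h1 : ContinuousOn (fun x => Complex.exp (-ψ x) • s2 x) (Hem (-N)) :=
        (Complex.continuous_exp.comp hψc.neg).continuousOn.smul hs2
      refine h1.congr fun x hx => ?_
      by_cases h : x ∈ Hem N
      · simp only [h, if_true]
        exact (hequ x h hx).symm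
      · simp only [h, if_false]
  · intro x hx
    by_cases h : x ∈ Hem N
    · simp only [h, if_true]
      exact hs1' x h
    · simp only [h, if_false]
      have h2 : x ∈ Hem (-N) := by
        refine ⟨hx, ?_⟩
        rw [inner_neg_left]
        by_contra h3
        exact h ⟨hx, by linarith [not_le.1 h3]⟩
      exact Eig_smul (Complex.exp_ne_zero _) (hs2' x h2)

end Pool.Agent.Helper81.MK
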